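import Mathlib

set_option autoImplicit false

namespace R166.BHW

open Submodule

universe u v

variable {E : Type*} [AddCommGroup E] [Module ℝ E]

/-- One step of the flag recursion: cutting a family of labelled lattice points, pairwise
disjoint modulo `M`, into the fibres of a functional `f`. -/
theorem fibre_step {A : Type u} [AddCommGroup A] (ι : A →ₗ[ℤ] E) (f : A →ₗ[ℤ] ℤ) (g : A)
    (hg : f g = 1) (M : ℕ) (hM : 0 < M) (P : ℕ) {I : Type v} (K : I → Set E)
    (S : Finset (I × A)) (hS : ∀ p ∈ S, ι p.2 ∈ K p.1)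
    (hP : ∀ p ∈ S, ∀ q ∈ S, p.1 ≠ q.1 → ∀ a : A, ∀ x ∈ K p.1, ∀ y ∈ K q.1,
      x - y ≠ (M : ℝ) • ι a)
    (hQ : ∀ p ∈ S, ∀ a : A, f a ≠ 0 → ∀ x ∈ K p.1, ∀ y ∈ K p.1, x - y ≠ (M : ℝ) • ι a)
    (ih : ∀ S' : Finset ((I × ℤ) × LinearMap.ker f),
      (∀ p ∈ S', ι (p.2 : A) + ι (p.1.2 • g) ∈ K p.1.1) →
      (∀ p ∈ S', ∃ q ∈ S, q.1 = p.1.1) →
      (∀ p ∈ S', ∀ q ∈ S', p.1 ≠ q.1 → ∀ a : LinearMap.ker f, ∀ x y : E,
        x + ι (p.1.2 • g) ∈ K p.1.1 → y + ι (q.1.2 • g) ∈ K q.1.1 → x - y ≠ (M : ℝ) • ι (a : A)) →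
      S'.card ≤ P) :
    S.card ≤ P * M := by
  classical
  have : NeZero M := ⟨hM.ne'⟩
  refine (Finset.card_le_mul_card_image (f := fun p : I × A => ((f p.2 : ℤ) : ZMod M)) S P
    ?_).trans ?_
  · intro c _
    set Sc := S.filter (fun p => ((f p.2 : ℤ) : ZMod M) = c) with hSc
    let F : I × A → (I × ℤ) × LinearMap.ker f := fun p =>
      ((p.1, f p.2), ⟨p.2 - (f p.2) • g, by simp [hg]⟩)
    have hinj : Set.InjOn F Sc := by
      intro p _ q _ h
      have h1 : (p.1, f p.2) = (q.1, f q.2) := congrArg Prod.fst h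
      have h2 : p.2 - (f p.2) • g = q.2 - (f q.2) • g :=
        congrArg (fun z => ((Prod.snd z : LinearMap.ker f) : A)) h
      have h3 : p.1 = q.1 := (Prod.mk.inj h1).1
      have h4 : f p.2 = f q.2 := (Prod.mk.inj h1).2
      rw [h4] at h2
      exact Prod.ext h3 (sub_left_injective h2)
    rw [← Finset.card_image_of_injOn hinj]
    refine ih (Sc.image F) ?_ ?_ ?_
    · intro p' hp'
      obtain ⟨p, hp, rfl⟩ := Finset.mem_image.1 hp'
      have hpS := (Finset.mem_filter.1 hp).1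
      show ι (p.2 - (f p.2) • g) + ι ((f p.2) • g) ∈ K p.1
      rw [← map_add, sub_add_cancel]
      exact hS p hpS
    · intro p' hp'
      obtain ⟨p, hp, rfl⟩ := Finset.mem_image.1 hp'
      exact ⟨p, (Finset.mem_filter.1 hp).1, rfl⟩
    · intro p' hp' q' hq' hne a x y hx hy hxy
      obtain ⟨p, hp, rfl⟩ := Finset.mem_image.1 hp'
      obtain ⟨q, hq, rfl⟩ := Finset.mem_image.1 hq'
      have hpS := (Finset.mem_filter.1 hp)
      have hqS := (Finset.mem_filter.1 hq)
      have hx' : x + ι ((f p.2) • g) ∈ K p.1 := hx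
      have hy' : y + ι ((f q.2) • g) ∈ K q.1 := hy
      have hcc : ((f q.2 : ℤ) : ZMod M) = ((f p.2 : ℤ) : ZMod M) := by rw [hqS.2, hpS.2]
      rw [ZMod.intCast_eq_intCast_iff_dvd_sub] at hcc
      obtain ⟨k, hk⟩ := hcc
      have hdiff : (x + ι ((f p.2) • g)) - (y + ι ((f q.2) • g)) = (M : ℝ) • ι ((a : A) + k • g) := by
        have h1 : (x + ι ((f p.2) • g)) - (y + ι ((f q.2) • g)) =
            (x - y) + ι ((f p.2 - f q.2) • g) := by
          rw [sub_smul, map_sub]; abel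
        rw [h1, hxy, hk, map_add, smul_add]
        congr 1
        rw [mul_smul, map_smul, ← Int.cast_smul_eq_zsmul ℝ]
        simp
      by_cases hlab : p.1 = q.1
      · have hn : f p.2 ≠ f q.2 := by
          intro h
          exact hne (Prod.ext hlab h)
        have hk0 : k ≠ 0 := by
          rintro rfl
          apply hn
          rw [mul_zero] at hk
          linarith
        have hfa : f ((a : A) + k • g) ≠ 0 := by
          rw [map_add, map_smul, hg, a.2]
          simpa using hk0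
        rw [hlab] at hx'
        exact hQ q hqS.1 _ hfa _ hx' _ hy' hdiff
      · exact hP p hpS.1 q hqS.1 hlab _ _ hx' _ hy' hdiff
  · gcongr
    calc _ ≤ Fintype.card (ZMod M) := Finset.card_le_univ _
      _ = M := ZMod.card M

end R166.BHW
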