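import Mathlib

set_option autoImplicit false

namespace R166.BHW

universe u v

variable {E : Type*} [NormedAddCommGroup E] [InnerProductSpace ℝ E]

open Metric

/-- The potential: squared distance to `C` plus a small multiple of the squared norm. -/
noncomputable def pot (C : Set E) (ε : ℝ) (u : E) : ℝ := infDist u C ^ 2 + ε * ‖u‖ ^ 2

theorem pot_conv {C : Set E} (hC : IsCompact C) (hne : C.Nonempty) (hv : Convex ℝ C) {ε : ℝ}
    (u v : E) {θ : ℝ} (h0 : 0 ≤ θ) (h1 : θ ≤ 1) :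
    pot C ε ((1 - θ) • u + θ • v) ≤
      (1 - θ) * pot C ε u + θ * pot C ε v - ε * (θ * (1 - θ)) * ‖u - v‖ ^ 2 := by
  obtain ⟨x, hx, hxu⟩ := hC.exists_infDist_eq_dist hne u
  obtain ⟨y, hy, hyv⟩ := hC.exists_infDist_eq_dist hne v
  have h1' : 0 ≤ 1 - θ := by linarith
  have hmem : (1 - θ) • x + θ • y ∈ C := hv hx hy h1' h0 (by ring)
  have hd : infDist ((1 - θ) • u + θ • v) C ≤ (1 - θ) * infDist u C + θ * infDist v C := by
    refine (infDist_le_dist_of_mem hmem).trans ?_
    rw [hxu, hyv, dist_eq_norm, dist_eq_norm, dist_eq_norm]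
    have e : (1 - θ) • u + θ • v - ((1 - θ) • x + θ • y) = (1 - θ) • (u - x) + θ • (v - y) := by
      module
    rw [e]
    refine (norm_add_le _ _).trans ?_
    rw [norm_smul, norm_smul, Real.norm_of_nonneg h1', Real.norm_of_nonneg h0]
  have hn1 : 0 ≤ infDist ((1 - θ) • u + θ • v) C := infDist_nonneg
  have hn2 : 0 ≤ infDist u C := infDist_nonneg
  have hn3 : 0 ≤ infDist v C := infDist_nonneg
  have hsq : infDist ((1 - θ) • u + θ • v) C ^ 2 ≤
      (1 - θ) * infDist u C ^ 2 + θ * infDist v C ^ 2 := by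
    have a1 : infDist ((1 - θ) • u + θ • v) C ^ 2 ≤
        ((1 - θ) * infDist u C + θ * infDist v C) ^ 2 := by gcongr
    have a2 : 0 ≤ θ * (1 - θ) * (infDist u C - infDist v C) ^ 2 := by positivity
    nlinarith
  have hnorm : ‖(1 - θ) • u + θ • v‖ ^ 2 =
      (1 - θ) * ‖u‖ ^ 2 + θ * ‖v‖ ^ 2 - θ * (1 - θ) * ‖u - v‖ ^ 2 := by
    rw [norm_add_sq_real, norm_sub_sq_real, norm_smul, norm_smul, Real.norm_of_nonneg h1',
      Real.norm_of_nonneg h0, real_inner_smul_left, real_inner_smul_right]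
    ring
  unfold pot
  rw [hnorm]
  linarith

theorem exists_min_of_finite {A : Type u} (h : A → ℝ) (a0 : A)
    (hfin : {a | h a ≤ h a0}.Finite) : ∃ w, ∀ a, h w ≤ h a := by
  classical
  obtain ⟨w, hw, hmin⟩ := hfin.toFinset.exists_min_image h
    ⟨a0, by simp⟩
  refine ⟨w, fun a => ?_⟩
  by_cases ha : a ∈ hfin.toFinset
  · exact hmin a ha
  · have h1 : h w ≤ h a0 := by simpa using hw
    simp only [Set.Finite.mem_toFinset, Set.mem_ofPred_eq, not_le] at ha
    linarith

/-- Moving the lattice points missing modulo `b` to lattice points missing modulo `m`. -/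
theorem tprime {A : Type u} [AddCommGroup A] (ι : A →ₗ[ℤ] E)
    (hinj : ∀ a : A, ι a = 0 → a = 0)
    (hdisc : ∀ R : ℝ, {a : A | ‖ι a‖ ≤ R}.Finite) {C : Set E} (hC : IsCompact C)
    (hne : C.Nonempty) (hv : Convex ℝ C) (b m : ℕ) (hb : 0 < b) (hbm : b < m) :
    ∃ τ : A → A,
      (∀ x, (∀ a : A, ∀ y ∈ C, ι x - y ≠ (b : ℝ) • ι a) →
        ∀ a : A, ∀ y ∈ C, ι (τ x) - y ≠ (m : ℝ) • ι a) ∧
      (∀ x x' a, τ x - τ x' = m • a → ∃ a', x - x' = b • a') := by
  classical
  have hb' : (0 : ℝ) < b := by exact_mod_cast hb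
  have hm' : (0 : ℝ) < m := by exact_mod_cast hb.trans hbm
  have hbm' : (b : ℝ) < m := by exact_mod_cast hbm
  have hbι : ∀ a : A, ι (b • a) = (b : ℝ) • ι a := by
    intro a
    rw [map_nsmul]
    exact (Nat.cast_smul_eq_nsmul ℝ b (ι a)).symm
  have hmι : ∀ a : A, ι (m • a) = (m : ℝ) • ι a := by
    intro a
    rw [map_nsmul]
    exact (Nat.cast_smul_eq_nsmul ℝ m (ι a)).symm
  obtain ⟨R0, hR0⟩ := hC.isBounded.subset_closedBall 0
  set R := max R0 0 with hRdef
  have hR0' : 0 ≤ R := le_max_right _ _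
  have hR : ∀ y ∈ C, ‖y‖ ≤ R := by
    intro y hy
    have := hR0 hy
    rw [mem_closedBall_zero_iff] at this
    exact this.trans (le_max_left _ _)
  -- a uniform gap
  obtain ⟨δ, hδ, hgap⟩ : ∃ δ : ℝ, 0 < δ ∧ ∀ a : A, ι a ∉ C → δ ≤ infDist (ι a) C := by
    have hfin := hdisc (R + 1)
    set F := hfin.toFinset.filter (fun a => ι a ∉ C) with hF
    have hout : ∀ a : A, a ∉ hfin.toFinset → 1 ≤ infDist (ι a) C := by
      intro a ha
      simp only [Set.Finite.mem_toFinset, Set.mem_ofPred_eq, not_le] at ha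
      obtain ⟨y, hy, hya⟩ := hC.exists_infDist_eq_dist hne (ι a)
      rw [hya, dist_eq_norm]
      have h1 := norm_sub_norm_le (ι a) y
      have h2 := hR y hy
      linarith
    rcases F.eq_empty_or_nonempty with hFe | hFn
    · refine ⟨1, one_pos, fun a ha => ?_⟩
      apply hout
      intro h
      have : a ∈ F := Finset.mem_filter.2 ⟨h, ha⟩
      rw [hFe] at this
      simp at this
    · obtain ⟨w, hw, hmin⟩ := F.exists_min_image (fun a => infDist (ι a) C) hFn
      have hwC := (Finset.mem_filter.1 hw).2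
      have hpos : 0 < infDist (ι w) C := (hC.isClosed.notMem_iff_infDist_pos hne).1 hwC
      refine ⟨min 1 (infDist (ι w) C), lt_min one_pos hpos, fun a ha => ?_⟩
      by_cases h : a ∈ hfin.toFinset
      · exact (min_le_right _ _).trans (hmin a (Finset.mem_filter.2 ⟨h, ha⟩))
      · exact (min_le_left _ _).trans (hout a h)
  set ε := δ ^ 2 / (2 * (R ^ 2 + 1)) with hε
  have hε0 : 0 < ε := by positivity
  have hεR : ε * R ^ 2 < δ ^ 2 := by
    rw [hε, div_mul_eq_mul_div, div_lt_iff₀ (by positivity)]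
    nlinarith [sq_nonneg R, pow_pos hδ 2]
  -- minimal lifts
  have hmin : ∀ x : A, ∃ w : A, ∀ a : A, pot C ε (ι (x + b • w)) ≤ pot C ε (ι (x + b • a)) := by
    intro x
    refine exists_min_of_finite (fun a => pot C ε (ι (x + b • a))) 0 ?_
    set P := pot C ε (ι (x + b • (0 : A))) with hP
    have hP0 : 0 ≤ P := by rw [hP]; unfold pot; positivity
    refine (hdisc ((Real.sqrt (P / ε) + ‖ι x‖) / b)).subset ?_
    intro a ha
    have ha' : pot C ε (ι (x + b • a)) ≤ P := ha
    have h1 : ε * ‖ι (x + b • a)‖ ^ 2 ≤ P := by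
      unfold pot at ha'
      have : 0 ≤ infDist (ι (x + b • a)) C ^ 2 := by positivity
      linarith
    have h2 : ‖ι (x + b • a)‖ ≤ Real.sqrt (P / ε) := by
      apply Real.le_sqrt_of_sq_le
      rw [le_div_iff₀ hε0]; linarith
    show ‖ι a‖ ≤ _
    rw [le_div_iff₀ hb']
    have h3 : ‖(b : ℝ) • ι a‖ = ‖ι a‖ * b := by
      rw [norm_smul, Real.norm_of_nonneg hb'.le, mul_comm]
    rw [← h3]
    have h4 : (b : ℝ) • ι a = ι (x + b • a) - ι x := by rw [map_add, hbι]; abel
    rw [h4]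
    exact (norm_sub_le _ _).trans (by linarith)
  choose w hw using hmin
  have hθ0 : 0 ≤ (b : ℝ) / m := by positivity
  have hθ1 : (b : ℝ) / m ≤ 1 := by rw [div_le_one hm']; exact hbm'.le
  have hθlt : (b : ℝ) / m < 1 := by rw [div_lt_one hm']; exact hbm'
  have hθpos : 0 < (b : ℝ) / m := by positivity
  refine ⟨fun x => x + b • w x, ?_, ?_⟩
  · intro x hx a y hy hxy
    have hxy' : ι (x + b • w x) - y = (m : ℝ) • ι a := hxy
    have hy' : y = ι (x + b • w x) - (m : ℝ) • ι a := by rw [← hxy']; abel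
    -- u0 not in C
    have hu0 : ι (x + b • w x) ∉ C := by
      intro h
      refine hx (-(w x)) _ h ?_
      rw [map_add, hbι, map_neg, smul_neg]
      abel
    have h1 := hw x (w x - a)
    have h2 : ι (x + b • (w x - a)) =
        (1 - (b : ℝ) / m) • ι (x + b • w x) + ((b : ℝ) / m) • y := by
      have h3 : ((b : ℝ) / m) • (m : ℝ) • ι a = (b : ℝ) • ι a := by
        rw [smul_smul]; congr 1; field_simp
      have e0 : ι (x + b • (w x - a)) = ι (x + b • w x) - (b : ℝ) • ι a := by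
        rw [smul_sub, ← add_sub_assoc, map_sub, hbι a]
      rw [e0, hy']
      have e3 : ((b : ℝ) / m) • (ι (x + b • w x) - (m : ℝ) • ι a) =
          ((b : ℝ) / m) • ι (x + b • w x) - (b : ℝ) • ι a := by rw [smul_sub, h3]
      rw [e3]
      module
    rw [h2] at h1
    have h3 := pot_conv hC hne hv (ε := ε) (ι (x + b • w x)) y hθ0 hθ1
    have h4 : 0 ≤ ε * ((b : ℝ) / m * (1 - (b : ℝ) / m)) * ‖ι (x + b • w x) - y‖ ^ 2 := by
      have : 0 ≤ 1 - (b : ℝ) / m := by linarith
      positivity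
    have h5 : (b : ℝ) / m * pot C ε (ι (x + b • w x)) ≤ (b : ℝ) / m * pot C ε y := by
      linarith
    have h6 := le_of_mul_le_mul_left h5 hθpos
    have h7 : pot C ε y ≤ ε * R ^ 2 := by
      unfold pot
      rw [infDist_zero_of_mem hy]
      have := hR y hy
      have h8 : ‖y‖ ^ 2 ≤ R ^ 2 := by gcongr
      nlinarith
    have h8 : δ ^ 2 ≤ pot C ε (ι (x + b • w x)) := by
      unfold pot
      have h9 := hgap _ hu0
      have h10 : δ ^ 2 ≤ infDist (ι (x + b • w x)) C ^ 2 := by gcongr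
      have h11 : 0 ≤ ε * ‖ι (x + b • w x)‖ ^ 2 := by positivity
      linarith
    linarith
  · intro x x' a hxa
    have hxa' : x + b • w x - (x' + b • w x') = m • a := hxa
    by_cases ha : a = 0
    · rw [ha, smul_zero, sub_eq_zero] at hxa'
      refine ⟨w x' - w x, ?_⟩
      rw [smul_sub, sub_eq_sub_iff_add_eq_add, hxa', add_comm]
    · exfalso
      have hιa : 0 < ‖ι a‖ := norm_pos_iff.2 fun h => ha (hinj a h)
      set u0 := ι (x' + b • w x') with hu0
      have hum : ι (x + b • w x) = u0 + (m : ℝ) • ι a := by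
        rw [hu0, ← hmι, ← map_add, ← hxa']; congr 1; abel
      have h1 := hw x' (w x' + a)
      have h2 := hw x (w x - a)
      have e1 : ι (x' + b • (w x' + a)) =
          (1 - (b : ℝ) / m) • u0 + ((b : ℝ) / m) • (u0 + (m : ℝ) • ι a) := by
        have h3 : ((b : ℝ) / m) • (m : ℝ) • ι a = (b : ℝ) • ι a := by
          rw [smul_smul]; congr 1; field_simp
        have e0 : ι (x' + b • (w x' + a)) = u0 + (b : ℝ) • ι a := by
          rw [smul_add, ← add_assoc, map_add, hbι a]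
        have e3 : ((b : ℝ) / m) • (u0 + (m : ℝ) • ι a) =
            ((b : ℝ) / m) • u0 + (b : ℝ) • ι a := by rw [smul_add, h3]
        rw [e0, e3]
        module
      have e2 : ι (x + b • (w x - a)) =
          (1 - (b : ℝ) / m) • (u0 + (m : ℝ) • ι a) + ((b : ℝ) / m) • u0 := by
        have h3 : ((b : ℝ) / m) • (m : ℝ) • ι a = (b : ℝ) • ι a := by
          rw [smul_smul]; congr 1; field_simp
        have h4 : (1 - (b : ℝ) / m) • (m : ℝ) • ι a = (m : ℝ) • ι a - (b : ℝ) • ι a := by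
          rw [sub_smul, one_smul, h3]
        have e0 : ι (x + b • (w x - a)) = u0 + (m : ℝ) • ι a - (b : ℝ) • ι a := by
          rw [smul_sub, ← add_sub_assoc, map_sub, hbι a, hum]
        have e3 : (1 - (b : ℝ) / m) • (u0 + (m : ℝ) • ι a) =
            (1 - (b : ℝ) / m) • u0 + ((m : ℝ) • ι a - (b : ℝ) • ι a) := by rw [smul_add, h4]
        rw [e0, e3]
        module
      rw [e1, ← hu0] at h1
      rw [e2, hum] at h2
      have c1 := pot_conv hC hne hv (ε := ε) u0 (u0 + (m : ℝ) • ι a) hθ0 hθ1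
      have c2 := pot_conv hC hne hv (ε := ε) (u0 + (m : ℝ) • ι a) u0 hθ0 hθ1
      have n1 : ‖u0 - (u0 + (m : ℝ) • ι a)‖ ^ 2 = (m : ℝ) ^ 2 * ‖ι a‖ ^ 2 := by
        have : u0 - (u0 + (m : ℝ) • ι a) = -((m : ℝ) • ι a) := by abel
        rw [this, norm_neg, norm_smul, Real.norm_of_nonneg hm'.le, mul_pow]
      have n2 : ‖u0 + (m : ℝ) • ι a - u0‖ ^ 2 = (m : ℝ) ^ 2 * ‖ι a‖ ^ 2 := by
        rw [add_sub_cancel_left, norm_smul, Real.norm_of_nonneg hm'.le, mul_pow]
      rw [n1] at c1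
      rw [n2] at c2
      have hpos : 0 < ε * ((b : ℝ) / m * (1 - (b : ℝ) / m)) * ((m : ℝ) ^ 2 * ‖ι a‖ ^ 2) := by
        have : 0 < 1 - (b : ℝ) / m := by linarith
        positivity
      linarith

end R166.BHW
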