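import Mathlib
import Pool.Agent.H257.BHW.Rec2
import Pool.Agent.R166.BHW.Fibre
import Pool.Agent.R166.BHW.TPrime

set_option autoImplicit false

namespace R166.BHW

open Submodule Pool.Agent.H257.BHW

universe u v

section one

variable {E : Type*} [AddCommGroup E] [Module ℝ E]

/-- Rank one: intervals disjoint modulo `b`, each injective modulo `M`. -/
theorem base1 {A : Type u} [AddCommGroup A] [Module.Free ℤ A] [Module.Finite ℤ A]
    (hA : Module.finrank ℤ A = 1) (ι : A →ₗ[ℤ] E) (b M : ℕ) (hb : 0 < b) (hbM : b ≤ M)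
    {I : Type v} (K : I → Set E) (hK : ∀ i, Convex ℝ (K i)) (S : Finset (I × A))
    (hS : ∀ p ∈ S, ι p.2 ∈ K p.1)
    (hP : ∀ p ∈ S, ∀ q ∈ S, p.1 ≠ q.1 → ∀ a : A, ∀ x ∈ K p.1, ∀ y ∈ K q.1,
      x - y ≠ (b : ℝ) • ι a)
    (hM' : ∀ p ∈ S, ∀ a : A, a ≠ 0 → ∀ x ∈ K p.1, ∀ y ∈ K p.1, x - y ≠ (M : ℝ) • ι a) :
    S.card ≤ M := by
  classical
  obtain ⟨f, hf, -, hker⟩ := exists_functional (N := 0) hA (∅ : Set A) (by simp)
  obtain ⟨g, hg⟩ := hf 1
  have hsub : Subsingleton (LinearMap.ker f) := by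
    rw [← Module.finrank_eq_zero_iff_of_free ℤ]; exact hker
  have hrep : ∀ a : A, a = f a • g := by
    intro a
    have h1 : a - f a • g ∈ LinearMap.ker f := by simp [hg]
    have h2 : (⟨a - f a • g, h1⟩ : LinearMap.ker f) = 0 := Subsingleton.elim _ _
    have h3 : a - f a • g = 0 := congrArg Subtype.val h2
    exact sub_eq_zero.1 h3
  have hzι : ∀ (n : ℤ), ι (n • g) = (n : ℝ) • ι g := by
    intro n
    rw [map_smul, ← Int.cast_smul_eq_zsmul ℝ]
  have hιrep : ∀ a : A, ι a = (f a : ℝ) • ι g := by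
    intro a
    conv_lhs => rw [hrep a]
    exact hzι _
  have hmul : ∀ (n : ℕ) (k : ℤ), ι ((n * k : ℤ) • g) = (n : ℝ) • ι (k • g) := by
    intro n k
    rw [hzι, hzι, smul_smul]; push_cast; rfl
  -- counting modulo n
  have hcount : ∀ n : ℕ, 0 < n → (∀ p ∈ S, ∀ q ∈ S, ∀ k : ℤ, f p.2 - f q.2 = n * k → p = q) →
      S.card ≤ n := by
    intro n hn hinj
    have : NeZero n := ⟨hn.ne'⟩
    calc S.card ≤ (Finset.univ : Finset (ZMod n)).card := by
          refine Finset.card_le_card_of_injOn (fun p => ((f p.2 : ℤ) : ZMod n))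
            (fun _ _ => Finset.mem_univ _) ?_
          intro p hp q hq h
          have h' : ((f q.2 : ℤ) : ZMod n) = ((f p.2 : ℤ) : ZMod n) := h.symm
          rw [ZMod.intCast_eq_intCast_iff_dvd_sub] at h'
          obtain ⟨k, hk⟩ := h'
          exact hinj p hp q hq k hk
      _ = n := by rw [Finset.card_univ, ZMod.card]
  by_cases hwrap : ∃ p ∈ S, ∃ q ∈ S, p.1 = q.1 ∧ ∃ k : ℤ, 0 < k ∧ f q.2 - f p.2 = b * k
  · obtain ⟨p, hp, q, hq, hpq, k, hk, hkk⟩ := hwrap
    have hb' : (0 : ℤ) < b := by exact_mod_cast hb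
    have hall : ∀ r ∈ S, r.1 = p.1 := by
      intro r hr
      by_contra hne
      set e := (f r.2 - f p.2) % b with he
      have he0 : 0 ≤ e := Int.emod_nonneg _ hb'.ne'
      have he1 : e < b := Int.emod_lt_of_pos _ hb'
      set c := f p.2 + e with hc
      have hd : (0 : ℝ) < (f q.2 : ℝ) - f p.2 := by
        have : (0 : ℤ) < f q.2 - f p.2 := by rw [hkk]; positivity
        exact_mod_cast this
      have hed : (e : ℝ) ≤ (f q.2 : ℝ) - f p.2 := by
        have : e ≤ f q.2 - f p.2 := by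
          rw [hkk]; nlinarith
        exact_mod_cast this
      have hz : ι (c • g) ∈ K p.1 := by
        have h1 := hS p hp
        have h2 := hS q hq
        rw [← hpq] at h2
        have h3 := hK p.1 h1 h2 (a := 1 - (e : ℝ) / ((f q.2 : ℝ) - f p.2))
          (b := (e : ℝ) / ((f q.2 : ℝ) - f p.2)) (by
            rw [sub_nonneg, div_le_one hd]; exact hed) (by
            apply div_nonneg _ hd.le; exact_mod_cast he0) (by ring)
        convert h3 using 1
        rw [hzι, hιrep p.2, hιrep q.2, smul_smul, smul_smul, ← add_smul]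
        congr 1
        rw [hc]
        push_cast
        field_simp
        ring
      have hrS := hS r hr
      refine hP p hp r hr (fun h => hne h.symm) ((-((f r.2 - f p.2) / b)) • g) _ hz _ hrS ?_
      have h4 : c - f r.2 = b * (-((f r.2 - f p.2) / b)) := by
        have := Int.emod_add_mul_ediv (f r.2 - f p.2) b
        rw [hc, he]; linarith
      rw [← hmul, ← h4, sub_smul, map_sub, ← hrep r.2]
    refine hcount M (hb.trans_le hbM) ?_
    intro r hr r' hr' k' hk'
    have h1 := hall r hr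
    have h2 := hall r' hr'
    by_contra hne
    have hk0 : k' • g ≠ 0 := by
      intro h0
      have h3 : f (k' • g) = 0 := by rw [h0]; simp
      rw [map_smul, hg] at h3
      have h4 : k' = 0 := by simpa using h3
      rw [h4, mul_zero] at hk'
      apply hne
      refine Prod.ext (h1.trans h2.symm) ?_
      rw [hrep r.2, hrep r'.2]
      have : f r.2 = f r'.2 := by linarith
      rw [this]
    have h5 := hS r hr
    have h6 := hS r' hr'
    rw [h2, ← h1] at h6
    refine hM' r hr (k' • g) hk0 _ h5 _ h6 ?_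
    rw [← hmul, ← hk', sub_smul, map_sub, ← hrep r.2, ← hrep r'.2]
  · refine (hcount b hb ?_).trans hbM
    intro p hp q hq k hk
    by_contra hne
    have hdiff : ι p.2 - ι q.2 = (b : ℝ) • ι (k • g) := by
      rw [← hmul, ← hk, sub_smul, map_sub, ← hrep p.2, ← hrep q.2]
    by_cases hlab : p.1 = q.1
    · rcases lt_trichotomy k 0 with h | h | h
      · exact hwrap ⟨p, hp, q, hq, hlab, -k, by linarith, by linarith⟩
      · rw [h, mul_zero] at hk
        apply hne
        refine Prod.ext hlab ?_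
        rw [hrep p.2, hrep q.2]
        have : f p.2 = f q.2 := by linarith
        rw [this]
      · exact hwrap ⟨q, hq, p, hp, hlab.symm, k, h, hk⟩
    · exact hP p hp q hq hlab _ _ (hS p hp) _ (hS q hq) hdiff

end one

section two

variable {E : Type*} [NormedAddCommGroup E] [InnerProductSpace ℝ E]

/-- Two bodies wrapping in independent directions of a planar lattice meet modulo `b`. -/
theorem crossing {A : Type u} [AddCommGroup A] (ι : A →ₗ[ℤ] E) (b : ℕ) (hb : 0 < b) (u1 u2 : A)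
    (hspan : ∀ z ∈ span ℝ (Set.range ι), ∃ α β : ℝ, z = α • ι u1 + β • ι u2)
    {C C' : Set E} (hC : Convex ℝ C) (hC' : Convex ℝ C') (hCs : C ⊆ span ℝ (Set.range ι))
    (hCs' : C' ⊆ span ℝ (Set.range ι)) {x y x' y' : E} (hx : x ∈ C) (hy : y ∈ C) (hx' : x' ∈ C')
    (hy' : y' ∈ C') (h1 : x - y = (b : ℝ) • ι u1) (h2 : x' - y' = (b : ℝ) • ι u2) :
    ∃ X ∈ C, ∃ Y ∈ C', ∃ a : A, X - Y = (b : ℝ) • ι a := by
  have hb' : (0 : ℝ) < b := by exact_mod_cast hb
  obtain ⟨α, β, hαβ⟩ := hspan (y - y') (sub_mem (hCs hy) (hCs' hy'))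
  set s := b * (⌈α / b⌉ : ℝ) - α with hs
  set t := β - b * (⌊β / b⌋ : ℝ) with ht
  have hs0 : 0 ≤ s := by
    have := Int.le_ceil (α / b)
    rw [div_le_iff₀ hb'] at this
    rw [hs]; linarith
  have hs1 : s ≤ b := by
    have := Int.ceil_lt_add_one (α / b)
    have h3 : (⌈α / b⌉ : ℝ) - 1 < α / b := by linarith
    rw [lt_div_iff₀ hb'] at h3
    rw [hs]; nlinarith
  have ht0 : 0 ≤ t := by
    have := Int.floor_le (β / b)
    rw [le_div_iff₀ hb'] at this
    rw [ht]; linarith
  have ht1 : t ≤ b := by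
    have := Int.lt_floor_add_one (β / b)
    rw [div_lt_iff₀ hb'] at this
    rw [ht]; nlinarith
  refine ⟨y + s • ι u1, ?_, y' + t • ι u2, ?_, (⌈α / b⌉ : ℤ) • u1 + (⌊β / b⌋ : ℤ) • u2, ?_⟩
  · have h3 := hC hy hx (a := 1 - s / b) (b := s / b) (by
      rw [sub_nonneg, div_le_one hb']; exact hs1) (by positivity) (by ring)
    convert h3 using 1
    have hx2 : x = y + (b : ℝ) • ι u1 := by rw [← h1]; abel
    have h4 : (s / b) • (y + (b : ℝ) • ι u1) = (s / b) • y + s • ι u1 := by
      rw [smul_add, smul_smul]; congr 2; field_simp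
    rw [hx2, h4]
    module
  · have h3 := hC' hy' hx' (a := 1 - t / b) (b := t / b) (by
      rw [sub_nonneg, div_le_one hb']; exact ht1) (by positivity) (by ring)
    convert h3 using 1
    have hx2 : x' = y' + (b : ℝ) • ι u2 := by rw [← h2]; abel
    have h4 : (t / b) • (y' + (b : ℝ) • ι u2) = (t / b) • y' + t • ι u2 := by
      rw [smul_add, smul_smul]; congr 2; field_simp
    rw [hx2, h4]
    module
  · have e1 : y + s • ι u1 - (y' + t • ι u2) = (y - y') + s • ι u1 - t • ι u2 := by abel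
    rw [e1, hαβ, map_add, map_smul, map_smul, ← Int.cast_smul_eq_zsmul ℝ,
      ← Int.cast_smul_eq_zsmul ℝ, hs, ht]
    module

end two

end R166.BHW
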