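import Mathlib
import Pool.Agent.R166.BHW.Base

set_option autoImplicit false

namespace R166.BHW

open Submodule Pool.Agent.H257.BHW

universe u v

variable {E : Type*} [NormedAddCommGroup E] [InnerProductSpace ℝ E] [FiniteDimensional ℝ E]

theorem base2_compact {A : Type u} [AddCommGroup A] [Module.Free ℤ A] [Module.Finite ℤ A]
    (hA : Module.finrank ℤ A = 2) (ι : A →ₗ[ℤ] E)
    (hI : ∀ (k : ℕ) (v : Fin k → A), LinearIndependent ℤ v →
        LinearIndependent ℝ (fun i => ι (v i)))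
    (hinj : ∀ a : A, ι a = 0 → a = 0)
    (hdisc : ∀ R : ℝ, {a : A | ‖ι a‖ ≤ R}.Finite)
    (b m1 m0 : ℕ) (hb : 0 < b) (h1 : b ≤ m1) (h2 : m1 ≤ m0) (D : Set E)
    {I : Type v} (K : I → Set E) (hK : ∀ i, Convex ℝ (K i)) (hKc : ∀ i, IsCompact (K i))
    (hKs : ∀ i, K i ⊆ span ℝ (Set.range ι))
    (hKD : ∀ i, ∀ x ∈ K i, ∀ y ∈ K i, x - y ∈ D)
    (ha0 : ∀ a : A, (m0 : ℝ) • ι a ∈ D → a = 0)
    (ha1 : Module.finrank ℝ (span ℝ (ι '' {a : A | (m1 : ℝ) • ι a ∈ D})) ≤ 1)
    (S : Finset (I × A)) (hS : ∀ p ∈ S, ι p.2 ∈ K p.1)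
    (hP : ∀ p ∈ S, ∀ q ∈ S, p.1 ≠ q.1 → ∀ a : A, ∀ x ∈ K p.1, ∀ y ∈ K q.1,
      x - y ≠ (b : ℝ) • ι a) :
    S.card ≤ m0 * m1 := by
  classical
  have hb' : (0 : ℝ) < b := by exact_mod_cast hb
  have hm1 : 0 < m1 := hb.trans_le h1
  have hm0 : 0 < m0 := hm1.trans_le h2
  set W : Set A := {a | a ≠ 0 ∧ ∃ p ∈ S, ∃ x ∈ K p.1, ∃ y ∈ K p.1, x - y = (b : ℝ) • ι a} with hWdef
  by_cases hW : Module.finrank ℝ (span ℝ (ι '' W)) ≤ 1
  · -- all wraps in one direction
    obtain ⟨f, hf, hfW, hker⟩ := exists_functional (N := 1) hA W ((rank_le ι hI W).trans hW)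
    obtain ⟨g, hg⟩ := hf 1
    refine (fibre_step ι f g hg b hb m0 K S hS hP ?_ ?_).trans (Nat.mul_le_mul_left _ h1)
    · intro p hp a hfa x hx y hy hxy
      apply hfa
      apply hfW
      refine ⟨?_, p, hp, x, hx, y, hy, hxy⟩
      rintro rfl
      simp at hfa
    · intro S' k1 k2 k3
      set ι0 : (LinearMap.ker f) →ₗ[ℤ] E := ι.comp (LinearMap.ker f).subtype with hι0
      refine base1 hker ι0 b m0 hb (h1.trans h2) (fun q : I × ℤ => {x | x + ι (q.2 • g) ∈ K q.1})
        ?_ S' (fun p hp => k1 p hp) (fun p hp q hq hne a x hx y hy => k3 p hp q hq hne a x y hx hy) ?_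
      · intro q x hx y hy α β hα hβ hαβ
        have := hK q.1 hx hy hα hβ hαβ
        show α • x + β • y + ι (q.2 • g) ∈ K q.1
        convert this using 1
        have hβ' : β = 1 - α := by linarith
        subst hβ'
        module
      · intro p hp a ha x hx y hy hxy
        have h3 := hKD p.1.1 _ hx _ hy
        have h4 : x + ι (p.1.2 • g) - (y + ι (p.1.2 • g)) = (m0 : ℝ) • ι (a : A) := by
          rw [add_sub_add_right_eq_sub, hxy]; rfl
        rw [h4] at h3
        exact ha (Subtype.ext (ha0 _ h3))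
  · -- one body wraps in two directions
    push Not at hW
    obtain ⟨v, hv, hvi⟩ := extract (N := 2) ι W hW
    -- the real span is spanned by any independent pair
    have hfr : Module.finrank ℝ (span ℝ (Set.range ι)) ≤ 2 := by
      let B := Module.finBasisOfFinrankEq ℤ A hA
      have h3 : span ℝ (Set.range ι) ≤ span ℝ (Set.range (fun i => ι (B i))) := by
        rw [span_le]
        rintro _ ⟨a, rfl⟩
        rw [← B.sum_repr a, map_sum]
        refine sum_mem fun i _ => ?_
        rw [map_smul, ← Int.cast_smul_eq_zsmul ℝ]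
        exact smul_mem _ _ (subset_span ⟨i, rfl⟩)
      refine (Submodule.finrank_mono h3).trans ?_
      refine (finrank_range_le_card _).trans ?_
      simp
    have hspan : ∀ u1 u2 : A, LinearIndependent ℝ ![ι u1, ι u2] →
        ∀ z ∈ span ℝ (Set.range ι), ∃ α β : ℝ, z = α • ι u1 + β • ι u2 := by
      intro u1 u2 hu z hz
      have h3 : span ℝ (Set.range ![ι u1, ι u2]) ≤ span ℝ (Set.range ι) := by
        rw [span_le]
        rintro _ ⟨i, rfl⟩
        fin_cases i
        · exact subset_span ⟨u1, rfl⟩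
        · exact subset_span ⟨u2, rfl⟩
      have h4 : Module.finrank ℝ (span ℝ (Set.range ![ι u1, ι u2])) = 2 := by
        rw [finrank_span_eq_card hu]; simp
      have h5 := Submodule.eq_of_le_of_finrank_le h3 (by rw [h4]; exact hfr)
      rw [← h5] at hz
      rw [Matrix.range_cons, Matrix.range_cons, Matrix.range_empty, Set.union_empty,
        Set.singleton_union, mem_span_pair] at hz
      obtain ⟨α, β, h⟩ := hz
      exact ⟨α, β, h.symm⟩
    have hcross : ∀ u1 u2 : A, LinearIndependent ℝ ![ι u1, ι u2] → ∀ p ∈ S, ∀ q ∈ S, p.1 ≠ q.1 →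
        (∃ x ∈ K p.1, ∃ y ∈ K p.1, x - y = (b : ℝ) • ι u1) →
        (∃ x ∈ K q.1, ∃ y ∈ K q.1, x - y = (b : ℝ) • ι u2) → False := by
      rintro u1 u2 hu p hp q hq hne ⟨x, hx, y, hy, hxy⟩ ⟨x', hx', y', hy', hxy'⟩
      obtain ⟨X, hX, Y, hY, a, ha⟩ := crossing ι b hb u1 u2 (hspan u1 u2 hu) (hK p.1) (hK q.1)
        (hKs p.1) (hKs q.1) hx hy hx' hy' hxy hxy'
      exact hP p hp q hq hne a X hX Y hY ha
    have hvi' : LinearIndependent ℝ ![ι (v 0), ι (v 1)] := by
      convert hvi using 1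
      ext i
      fin_cases i <;> rfl
    obtain ⟨hv0, p0, hp0, w0⟩ := hv 0
    obtain ⟨hv1, p1, hp1, w1⟩ := hv 1
    have hlab : p1.1 = p0.1 := by
      by_contra hne
      exact hcross _ _ hvi' p0 hp0 p1 hp1 (fun h => hne h.symm) w0 w1
    rw [hlab] at w1
    -- the other bodies do not wrap
    have hnowrap : ∀ q ∈ S, q.1 ≠ p0.1 → ∀ a : A, a ≠ 0 → ∀ x ∈ K q.1, ∀ y ∈ K q.1,
        x - y ≠ (b : ℝ) • ι a := by
      intro q hq hne a ha x hx y hy hxy
      have hιa : ι a ≠ 0 := fun h => ha (hinj a h)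
      by_cases hd0 : LinearIndependent ℝ ![ι (v 0), ι a]
      · exact hcross _ _ hd0 p0 hp0 q hq (fun h => hne h.symm) w0 ⟨x, hx, y, hy, hxy⟩
      · by_cases hd1 : LinearIndependent ℝ ![ι (v 1), ι a]
        · exact hcross _ _ hd1 p0 hp0 q hq (fun h => hne h.symm) w1 ⟨x, hx, y, hy, hxy⟩
        · have hι0 : ι (v 0) ≠ 0 := fun h => hv0 (hinj _ h)
          have hι1 : ι (v 1) ≠ 0 := fun h => hv1 (hinj _ h)
          rw [LinearIndependent.pair_iff' hι0] at hd0
          rw [LinearIndependent.pair_iff' hι1] at hd1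
          push Not at hd0 hd1
          obtain ⟨α, hα⟩ := hd0
          obtain ⟨β, hβ⟩ := hd1
          rw [LinearIndependent.pair_iff] at hvi'
          have h3 := hvi' α (-β) (by rw [hα, neg_smul, hβ]; abel)
          rw [h3.1, zero_smul] at hα
          exact hιa hα.symm
    -- the translation map
    obtain ⟨τ, hτ1, hτ2⟩ : ∃ τ : A → A,
      (∀ x, (∀ a : A, ∀ y ∈ K p0.1, ι x - y ≠ (b : ℝ) • ι a) →
        ∀ a : A, ∀ y ∈ K p0.1, ι (τ x) - y ≠ (m1 : ℝ) • ι a) ∧
      (∀ x x' a, τ x - τ x' = m1 • a → ∃ a', x - x' = b • a') := by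
      rcases h1.lt_or_eq with h | h
      · exact tprime ι hinj hdisc (hKc p0.1) ⟨_, hS p0 hp0⟩ (hK p0.1) b m1 hb h
      · refine ⟨id, fun x hx a y hy => ?_, fun x x' a ha => ⟨a, ?_⟩⟩
        · rw [← h]; exact hx a y hy
        · rw [h]; exact ha
    have hgood : ∀ q ∈ S, q.1 ≠ p0.1 → ∀ a : A, ∀ y ∈ K p0.1, ι (τ q.2) - y ≠ (m1 : ℝ) • ι a := by
      intro q hq hne
      apply hτ1
      intro a y hy
      exact hP q hq p0 hp0 hne a _ (hS q hq) y hy
    -- the new family
    obtain ⟨f, hf, hfX, hker⟩ := exists_functional (N := 1) hA {a : A | (m1 : ℝ) • ι a ∈ D}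
      ((rank_le ι hI _).trans ha1)
    obtain ⟨g, hg⟩ := hf 1
    let G : I × A → Option (I × A) × A := fun p =>
      if p.1 = p0.1 then (none, p.2) else (some p, τ p.2)
    have hG1 : ∀ p : I × A, p.1 = p0.1 → G p = (none, p.2) := fun p h => if_pos h
    have hG2 : ∀ p : I × A, p.1 ≠ p0.1 → G p = (some p, τ p.2) := fun p h => if_neg h
    have hGinj : Set.InjOn G S := by
      intro p _ q _ h
      by_cases hp' : p.1 = p0.1 <;> by_cases hq' : q.1 = p0.1
      · rw [hG1 p hp', hG1 q hq'] at h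
        exact Prod.ext (hp'.trans hq'.symm) (Prod.mk.inj h).2
      · rw [hG1 p hp', hG2 q hq'] at h
        exact absurd (Prod.mk.inj h).1 (by simp)
      · rw [hG2 p hp', hG1 q hq'] at h
        exact absurd (Prod.mk.inj h).1 (by simp)
      · rw [hG2 p hp', hG2 q hq'] at h
        exact Option.some.inj (Prod.mk.inj h).1
    let K' : Option (I × A) → Set E := fun o => match o with
      | none => K p0.1
      | some r => {ι (τ r.2)}
    have hK'v : ∀ o, Convex ℝ (K' o) := by
      intro o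
      cases o with
      | none => exact hK p0.1
      | some r => exact convex_singleton _
    rw [← Finset.card_image_of_injOn hGinj]
    refine fibre_step ι f g hg m1 hm1 m0 K' (S.image G) ?_ ?_ ?_ ?_
    · intro p' hp'
      obtain ⟨p, hp, rfl⟩ := Finset.mem_image.1 hp'
      by_cases h : p.1 = p0.1
      · rw [hG1 p h]
        show ι p.2 ∈ K p0.1
        rw [← h]; exact hS p hp
      · rw [hG2 p h]
        show ι (τ p.2) ∈ ({ι (τ p.2)} : Set E)
        rfl
    · intro p' hp' q' hq' hne a x hx y hy hxy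
      obtain ⟨p, hp, rfl⟩ := Finset.mem_image.1 hp'
      obtain ⟨q, hq, rfl⟩ := Finset.mem_image.1 hq'
      by_cases hp1' : p.1 = p0.1 <;> by_cases hq1' : q.1 = p0.1
      · rw [hG1 p hp1', hG1 q hq1'] at hne
        exact hne rfl
      · rw [hG1 p hp1'] at hx
        rw [hG2 q hq1'] at hy
        have hx' : x ∈ K p0.1 := hx
        have hy' : y = ι (τ q.2) := hy
        refine hgood q hq hq1' (-a) x hx' ?_
        rw [← hy', map_neg, smul_neg, ← hxy]; abel
      · rw [hG2 p hp1'] at hx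
        rw [hG1 q hq1'] at hy
        have hy' : y ∈ K p0.1 := hy
        have hx' : x = ι (τ p.2) := hx
        refine hgood p hp hp1' a y hy' ?_
        rw [← hx', hxy]
      · rw [hG2 p hp1'] at hx hne
        rw [hG2 q hq1'] at hy hne
        have hx' : x = ι (τ p.2) := hx
        have hy' : y = ι (τ q.2) := hy
        have hpq : p ≠ q := fun h => hne (by rw [h])
        have h3 : τ p.2 - τ q.2 = m1 • a := by
          have h4 : ι (τ p.2 - τ q.2 - m1 • a) = 0 := by
            rw [map_sub, map_sub, map_nsmul, ← hx', ← hy', hxy, ← Nat.cast_smul_eq_nsmul ℝ, sub_self]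
          exact sub_eq_zero.1 (hinj _ h4)
        obtain ⟨a', ha'⟩ := hτ2 _ _ _ h3
        have h5 : ι p.2 - ι q.2 = (b : ℝ) • ι a' := by
          rw [← map_sub, ha', map_nsmul, ← Nat.cast_smul_eq_nsmul ℝ]
        by_cases hl : p.1 = q.1
        · have ha0' : a' ≠ 0 := by
            rintro rfl
            rw [smul_zero, sub_eq_zero] at ha'
            exact hpq (Prod.ext hl ha')
          have h6 := hS q hq
          rw [← hl] at h6
          exact hnowrap p hp hp1' a' ha0' _ (hS p hp) _ h6 h5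
        · exact hP p hp q hq hl a' _ (hS p hp) _ (hS q hq) h5
    · intro p' hp' a hfa x hx y hy hxy
      obtain ⟨p, hp, rfl⟩ := Finset.mem_image.1 hp'
      by_cases h : p.1 = p0.1
      · rw [hG1 p h] at hx hy
        apply hfa
        apply hfX
        show (m1 : ℝ) • ι a ∈ D
        rw [← hxy]
        exact hKD p0.1 x hx y hy
      · rw [hG2 p h] at hx hy
        have hx' : x = ι (τ p.2) := hx
        have hy' : y = ι (τ p.2) := hy
        rw [hx', hy', sub_self] at hxy
        have h3 : ι a = 0 := by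
          rcases smul_eq_zero.1 hxy.symm with h4 | h4
          · exact absurd h4 (by exact_mod_cast hm1.ne')
          · exact h4
        rw [hinj a h3] at hfa
        simp at hfa
    · intro S' k1 k2 k3
      set ι0 : (LinearMap.ker f) →ₗ[ℤ] E := ι.comp (LinearMap.ker f).subtype with hι0
      refine base1 hker ι0 m1 m0 hm1 h2
        (fun q : Option (I × A) × ℤ => {x | x + ι (q.2 • g) ∈ K' q.1})
        ?_ S' (fun p hp => k1 p hp) (fun p hp q hq hne a x hx y hy => k3 p hp q hq hne a x y hx hy) ?_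
      · intro q x hx y hy α β hα hβ hαβ
        have := hK'v q.1 hx hy hα hβ hαβ
        show α • x + β • y + ι (q.2 • g) ∈ K' q.1
        convert this using 1
        have hβ' : β = 1 - α := by linarith
        subst hβ'
        module
      · intro p hp a ha x hx y hy hxy
        have h4 : x + ι (p.1.2 • g) - (y + ι (p.1.2 • g)) = (m0 : ℝ) • ι (a : A) := by
          rw [add_sub_add_right_eq_sub, hxy]; rfl
        have hx' : x + ι (p.1.2 • g) ∈ K' p.1.1 := hx
        have hy' : y + ι (p.1.2 • g) ∈ K' p.1.1 := hy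
        generalize p.1.1 = o at hx' hy'
        cases o with
        | none =>
          have h3 := hKD p0.1 _ hx' _ hy'
          rw [h4] at h3
          exact ha (Subtype.ext (ha0 _ h3))
        | some r =>
          have hx2 : x + ι (p.1.2 • g) = ι (τ r.2) := hx'
          have hy2 : y + ι (p.1.2 • g) = ι (τ r.2) := hy'
          rw [hx2, hy2, sub_self] at h4
          have h3 : ι (a : A) = 0 := by
            rcases smul_eq_zero.1 h4.symm with h5 | h5
            · exact absurd h5 (by exact_mod_cast hm0.ne')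
            · exact h5
          exact ha (Subtype.ext (hinj _ h3))

/-- Rank two. -/
theorem base2 {A : Type u} [AddCommGroup A] [Module.Free ℤ A] [Module.Finite ℤ A]
    (hA : Module.finrank ℤ A = 2) (ι : A →ₗ[ℤ] E)
    (hI : ∀ (k : ℕ) (v : Fin k → A), LinearIndependent ℤ v →
        LinearIndependent ℝ (fun i => ι (v i)))
    (hinj : ∀ a : A, ι a = 0 → a = 0)
    (hdisc : ∀ R : ℝ, {a : A | ‖ι a‖ ≤ R}.Finite)
    (b m1 m0 : ℕ) (hb : 0 < b) (h1 : b ≤ m1) (h2 : m1 ≤ m0) (D : Set E)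
    {I : Type v} (K : I → Set E) (hK : ∀ i, Convex ℝ (K i))
    (hKD : ∀ i, ∀ x ∈ K i, ∀ y ∈ K i, x - y ∈ D)
    (ha0 : ∀ a : A, (m0 : ℝ) • ι a ∈ D → a = 0)
    (ha1 : Module.finrank ℝ (span ℝ (ι '' {a : A | (m1 : ℝ) • ι a ∈ D})) ≤ 1)
    (S : Finset (I × A)) (hS : ∀ p ∈ S, ι p.2 ∈ K p.1)
    (hP : ∀ p ∈ S, ∀ q ∈ S, p.1 ≠ q.1 → ∀ a : A, ∀ x ∈ K p.1, ∀ y ∈ K q.1,
      x - y ≠ (b : ℝ) • ι a) :
    S.card ≤ m0 * m1 := by
  classical
  let K0 : I → Set E := fun i => convexHull ℝ (ι '' {a | (i, a) ∈ S})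
  have hfin : ∀ i, (ι '' {a | (i, a) ∈ S}).Finite := by
    intro i
    apply Set.Finite.image
    refine Set.Finite.of_injOn (f := fun a => (i, a)) (t := (S : Set (I × A))) (fun a ha => ha) ?_
      S.finite_toSet
    intro a _ b _ h
    exact (Prod.mk.inj h).2
  have hsub : ∀ i, K0 i ⊆ K i := by
    intro i
    refine convexHull_min ?_ (hK i)
    rintro _ ⟨a, ha, rfl⟩
    exact hS _ ha
  refine base2_compact hA ι hI hinj hdisc b m1 m0 hb h1 h2 D K0 (fun i => convex_convexHull ℝ _)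
    (fun i => (hfin i).isCompact_convexHull ℝ) ?_ ?_ ha0 ha1 S ?_ ?_
  · intro i
    have hcv : Convex ℝ (span ℝ (Set.range ι) : Set E) :=
      fun x hx y hy α β _ _ _ => add_mem (smul_mem _ _ hx) (smul_mem _ _ hy)
    refine convexHull_min ?_ hcv
    rintro _ ⟨a, _, rfl⟩
    exact subset_span ⟨a, rfl⟩
  · intro i x hx y hy
    exact hKD i x (hsub i hx) y (hsub i hy)
  · intro p hp
    exact subset_convexHull ℝ _ ⟨p.2, hp, rfl⟩
  · intro p hp q hq hne a x hx y hy
    exact hP p hp q hq hne a x (hsub _ hx) y (hsub _ hy)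

end R166.BHW
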