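import Mathlib
import Pool.Agent.H257.BHW.Rec2
import Pool.Agent.R166.BHW.Fibre

set_option autoImplicit false

namespace R166.BHW

open Submodule Pool.Agent.H257.BHW

universe u v

variable {E : Type*} [NormedAddCommGroup E] [InnerProductSpace ℝ E]

open scoped InnerProductSpace

/-- A nearest point of `b • A` to `t`. -/
theorem exists_near {A : Type u} [AddCommGroup A] (ι : A →ₗ[ℤ] E)
    (hdisc : ∀ R : ℝ, {a : A | ‖ι a‖ ≤ R}.Finite) (b : ℕ) (hb : 0 < b) (t : E) :
    ∃ w : A, ∀ a : A, ‖t - (b : ℝ) • ι w‖ ≤ ‖t - (b : ℝ) • ι a‖ := by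
  classical
  have hb' : (0 : ℝ) < b := by exact_mod_cast hb
  have hfin := hdisc (2 * ‖t‖ / b)
  have h0 : (0 : A) ∈ hfin.toFinset := by
    simp only [Set.Finite.mem_toFinset, Set.mem_ofPred_eq, map_zero, norm_zero]
    positivity
  obtain ⟨w, hw, hmin⟩ := hfin.toFinset.exists_min_image (fun a => ‖t - (b : ℝ) • ι a‖) ⟨0, h0⟩
  refine ⟨w, fun a => ?_⟩
  by_cases ha : a ∈ hfin.toFinset
  · exact hmin a ha
  · have h1 := hmin 0 h0
    simp only [map_zero, smul_zero, sub_zero] at h1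
    refine h1.trans ?_
    simp only [Set.Finite.mem_toFinset, Set.mem_ofPred_eq, not_le] at ha
    rw [div_lt_iff₀ hb'] at ha
    have h2 : ‖(b : ℝ) • ι a‖ = ‖ι a‖ * b := by
      rw [norm_smul, Real.norm_of_nonneg hb'.le, mul_comm]
    have h3 := norm_sub_norm_le ((b : ℝ) • ι a) t
    rw [norm_sub_rev] at h3
    linarith

theorem near_inner {A : Type u} [AddCommGroup A] (ι : A →ₗ[ℤ] E) (b : ℕ) (hb : 0 < b) (t : E)
    (w : A) (hw : ∀ a : A, ‖t - (b : ℝ) • ι w‖ ≤ ‖t - (b : ℝ) • ι a‖) (z : A) :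
    2 * ⟪t - (b : ℝ) • ι w, ι z⟫_ℝ ≤ b * ‖ι z‖ ^ 2 := by
  have hb' : (0 : ℝ) < b := by exact_mod_cast hb
  have h1 := hw (w + z)
  have h2 : t - (b : ℝ) • ι (w + z) = (t - (b : ℝ) • ι w) - (b : ℝ) • ι z := by
    rw [map_add, smul_add]; abel
  rw [h2] at h1
  generalize t - (b : ℝ) • ι w = u at h1 ⊢
  have h3 : ‖u‖ ^ 2 ≤ ‖u - (b : ℝ) • ι z‖ ^ 2 := by
    gcongr
  rw [norm_sub_sq_real, real_inner_smul_right, norm_smul, Real.norm_of_nonneg hb'.le, mul_pow] at h3
  have h4 : b * (2 * ⟪u, ι z⟫_ℝ) ≤ b * (b * ‖ι z‖ ^ 2) := by nlinarith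
  exact le_of_mul_le_mul_left h4 hb'

/-- The flag recursion for Euclidean balls. -/
theorem rec_ell [FiniteDimensional ℝ E] (m : ℕ → ℕ) (hm : Antitone m) (hpos : ∀ j, 0 < m j) :
    ∀ (n : ℕ) (A : Type u) [AddCommGroup A] [Module.Free ℤ A] [Module.Finite ℤ A]
      (ι : A →ₗ[ℤ] E), Module.finrank ℤ A = n →
      (∀ (k : ℕ) (v : Fin k → A), LinearIndependent ℤ v →
        LinearIndependent ℝ (fun i => ι (v i))) →
      (∀ R : ℝ, {a : A | ‖ι a‖ ≤ R}.Finite) →
      (∀ j < n, Module.finrank ℝ (span ℝ (ι '' {a : A | ‖(m j : ℝ) • ι a‖ ≤ 2})) ≤ j) →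
      ∀ (b : ℕ), 0 < b → (0 < n → b ≤ m (n - 1)) → ∀ (I : Type v) (t : I → E)
        (S : Finset (I × A)),
      (∀ p ∈ S, ‖ι p.2 - t p.1‖ ≤ 1) →
      (∀ p ∈ S, ∀ q ∈ S, p.1 ≠ q.1 → ∀ a : A, 2 < ‖(b : ℝ) • ι a - (t p.1 - t q.1)‖) →
      S.card ≤ ∏ j ∈ Finset.range n, m j := by
  classical
  intro n
  induction n with
  | zero =>
    intro A _ _ _ ι hA _ _ _ b hb _ I t S hS hP
    have hsub : Subsingleton A := by
      rw [← Module.finrank_eq_zero_iff_of_free ℤ A]; exact hA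
    simp only [Finset.range_zero, Finset.prod_empty]
    rw [Finset.card_le_one]
    intro p hp q hq
    have h2 : p.2 = q.2 := Subsingleton.elim _ _
    by_contra hne
    have h1 : p.1 ≠ q.1 := fun h => hne (Prod.ext h h2)
    have h3 := hP p hp q hq h1 0
    have h4 := hS p hp
    have h5 := hS q hq
    rw [← h2] at h5
    have h6 : (b : ℝ) • ι 0 - (t p.1 - t q.1) = (ι p.2 - t p.1) - (ι p.2 - t q.1) := by
      rw [map_zero, smul_zero]; abel
    rw [h6] at h3
    have h7 := norm_sub_le (ι p.2 - t p.1) (ι p.2 - t q.1)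
    linarith
  | succ N ih =>
    intro A _ _ _ ι hA hI hdisc ha b hb hbm I t S hS hP
    have hbM : b ≤ m N := by simpa using hbm (Nat.succ_pos N)
    have hb' : (0 : ℝ) < b := by exact_mod_cast hb
    have hbM' : (b : ℝ) ≤ m N := by exact_mod_cast hbM
    -- rounding
    choose w hw using fun i => exists_near ι hdisc b hb (t i)
    have hwi := fun i z => near_inner ι b hb (t i) (w i) (hw i) z
    set t' : I → E := fun i => t i - (b : ℝ) • ι (w i) with ht'
    let G : I × A → I × A := fun p => (p.1, p.2 - (b : ℤ) • w p.1)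
    have hGinj : Set.InjOn G S := by
      intro p _ q _ h
      have h1 : p.1 = q.1 := (Prod.mk.inj h).1
      have h2 : p.2 - (b : ℤ) • w p.1 = q.2 - (b : ℤ) • w q.1 := (Prod.mk.inj h).2
      rw [h1] at h2
      exact Prod.ext h1 (sub_left_injective h2)
    have hbι : ∀ a : A, ι ((b : ℤ) • a) = (b : ℝ) • ι a := by
      intro a
      rw [map_smul, ← Int.cast_smul_eq_zsmul ℝ]; simp
    rw [← Finset.card_image_of_injOn hGinj]
    have hS' : ∀ p ∈ S.image G, ‖ι p.2 - t' p.1‖ ≤ 1 := by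
      intro p' hp'
      obtain ⟨p, hp, rfl⟩ := Finset.mem_image.1 hp'
      show ‖ι (p.2 - (b : ℤ) • w p.1) - (t p.1 - (b : ℝ) • ι (w p.1))‖ ≤ 1
      rw [map_sub, hbι]
      have : ι p.2 - (b : ℝ) • ι (w p.1) - (t p.1 - (b : ℝ) • ι (w p.1)) = ι p.2 - t p.1 := by abel
      rw [this]
      exact hS p hp
    have hP' : ∀ p ∈ S.image G, ∀ q ∈ S.image G, p.1 ≠ q.1 → ∀ a : A,
        2 < ‖(m N : ℝ) • ι a - (t' p.1 - t' q.1)‖ := by
      intro p' hp' q' hq' hne a
      obtain ⟨p, hp, rfl⟩ := Finset.mem_image.1 hp'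
      obtain ⟨q, hq, rfl⟩ := Finset.mem_image.1 hq'
      have hne' : p.1 ≠ q.1 := hne
      show 2 < ‖(m N : ℝ) • ι a - (t' p.1 - t' q.1)‖
      have h1 := hP p hp q hq hne' (a + w p.1 - w q.1)
      have h2 : (b : ℝ) • ι (a + w p.1 - w q.1) - (t p.1 - t q.1) =
          (b : ℝ) • ι a - (t' p.1 - t' q.1) := by
        simp only [ht', map_add, map_sub, smul_add, smul_sub]
        abel
      rw [h2] at h1
      refine h1.trans_le ?_
      have h3 := hwi p.1 a
      have h4 := hwi q.1 (-a)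
      rw [map_neg, inner_neg_right, norm_neg] at h4
      have h5 : 2 * ⟪t' p.1 - t' q.1, ι a⟫_ℝ ≤ 2 * b * ‖ι a‖ ^ 2 := by
        rw [inner_sub_left]
        have h3' : 2 * ⟪t' p.1, ι a⟫_ℝ ≤ b * ‖ι a‖ ^ 2 := h3
        have h4' : 2 * -⟪t' q.1, ι a⟫_ℝ ≤ b * ‖ι a‖ ^ 2 := h4
        linarith
      have h6 : ‖(b : ℝ) • ι a - (t' p.1 - t' q.1)‖ ^ 2 ≤
          ‖(m N : ℝ) • ι a - (t' p.1 - t' q.1)‖ ^ 2 := by
        clear_value t'
        generalize t' p.1 - t' q.1 = T at h5 ⊢
        rw [norm_sub_sq_real, norm_sub_sq_real, real_inner_smul_left, real_inner_smul_left,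
          norm_smul, norm_smul, Real.norm_of_nonneg hb'.le, Real.norm_of_nonneg (hb'.le.trans hbM'),
          real_inner_comm]
        have hd : 0 ≤ (m N : ℝ) - b := by linarith
        have h7 := mul_le_mul_of_nonneg_left h5 hd
        have h8 : 0 ≤ ((m N : ℝ) - b) * ((m N : ℝ) - b) * ‖ι a‖ ^ 2 := by positivity
        nlinarith
      exact le_of_sq_le_sq h6 (norm_nonneg _)
    -- fibres
    have hX : Module.finrank ℤ (span ℤ {a : A | ‖(m N : ℝ) • ι a‖ ≤ 2}) ≤ N :=
      le_trans (rank_le ι hI _) (ha N (Nat.lt_succ_self N))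
    obtain ⟨f, hf, hfX, hker⟩ := exists_functional hA _ hX
    obtain ⟨g, hg⟩ := hf 1
    rw [Finset.prod_range_succ]
    refine fibre_step ι f g hg (m N) (hpos N) _ (fun i => Metric.closedBall (t' i) 1) (S.image G)
      ?_ ?_ ?_ ?_
    · intro p hp
      rw [Metric.mem_closedBall, dist_eq_norm]
      exact hS' p hp
    · intro p hp q hq hne a x hx y hy hxy
      rw [Metric.mem_closedBall, dist_eq_norm] at hx hy
      have h1 := hP' p hp q hq hne a
      rw [← hxy] at h1
      have h2 : x - y - (t' p.1 - t' q.1) = (x - t' p.1) - (y - t' q.1) := by abel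
      rw [h2] at h1
      have := norm_sub_le (x - t' p.1) (y - t' q.1)
      linarith
    · intro p hp a hfa x hx y hy hxy
      rw [Metric.mem_closedBall, dist_eq_norm] at hx hy
      apply hfa
      apply hfX
      show ‖(m N : ℝ) • ι a‖ ≤ 2
      rw [← hxy]
      have h2 : x - y = (x - t' p.1) - (y - t' p.1) := by abel
      rw [h2]
      have := norm_sub_le (x - t' p.1) (y - t' p.1)
      linarith
    · intro S' h1 h2 h3
      set ι0 : (LinearMap.ker f) →ₗ[ℤ] E := ι.comp (LinearMap.ker f).subtype with hι0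
      have hI0 : ∀ (k : ℕ) (v : Fin k → LinearMap.ker f), LinearIndependent ℤ v →
          LinearIndependent ℝ (fun i => ι0 (v i)) := by
        intro k v hv
        have h1 : LinearIndependent ℤ (fun i => ((v i : LinearMap.ker f) : A)) :=
          hv.map' (LinearMap.ker f).subtype (ker_subtype _)
        exact hI k _ h1
      refine ih (LinearMap.ker f) ι0 hker hI0 ?_ ?_ (m N) (hpos N) ?_ (I × ℤ)
        (fun q => t' q.1 - ι (q.2 • g)) S' ?_ ?_
      · intro R
        refine Set.Finite.of_injOn (f := fun a : LinearMap.ker f => (a : A)) (t := {a : A | ‖ι a‖ ≤ R})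
          ?_ Subtype.val_injective.injOn (hdisc R)
        intro a ha
        exact ha
      · intro j hj
        refine le_trans ?_ (ha j (by omega))
        apply Submodule.finrank_mono
        apply span_mono
        rintro _ ⟨a, haa, rfl⟩
        exact ⟨(a : A), haa, rfl⟩
      · intro hN
        exact hm (by omega)
      · intro p hp
        have := h1 p hp
        rw [Metric.mem_closedBall, dist_eq_norm] at this
        show ‖ι (p.2 : A) - (t' p.1.1 - ι (p.1.2 • g))‖ ≤ 1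
        have e : ι (p.2 : A) - (t' p.1.1 - ι (p.1.2 • g)) = ι (p.2 : A) + ι (p.1.2 • g) - t' p.1.1 := by
          abel
        rw [e]; exact this
      · intro p hp q hq hne a
        show 2 < ‖(m N : ℝ) • ι (a : A) - (t' p.1.1 - ι (p.1.2 • g) - (t' q.1.1 - ι (q.1.2 • g)))‖
        by_contra hcon
        push Not at hcon
        set T := t' p.1.1 - ι (p.1.2 • g) - (t' q.1.1 - ι (q.1.2 • g)) with hT
        set r := (m N : ℝ) • ι (a : A) - T with hr
        -- x = centre_p + r/2, y = centre_q - r/2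
        refine h3 p hp q hq hne a (t' p.1.1 - ι (p.1.2 • g) + (1/2 : ℝ) • r)
          (t' q.1.1 - ι (q.1.2 • g) - (1/2 : ℝ) • r) ?_ ?_ ?_
        · rw [Metric.mem_closedBall, dist_eq_norm]
          have e : t' p.1.1 - ι (p.1.2 • g) + (1/2 : ℝ) • r + ι (p.1.2 • g) - t' p.1.1 = (1/2 : ℝ) • r := by
            abel
          rw [e, norm_smul, Real.norm_of_nonneg (by norm_num)]
          linarith
        · rw [Metric.mem_closedBall, dist_eq_norm]
          have e : t' q.1.1 - ι (q.1.2 • g) - (1/2 : ℝ) • r + ι (q.1.2 • g) - t' q.1.1 = -((1/2 : ℝ) • r) := by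
            abel
          rw [e, norm_neg, norm_smul, Real.norm_of_nonneg (by norm_num)]
          linarith
        · have e : t' p.1.1 - ι (p.1.2 • g) + (1/2 : ℝ) • r - (t' q.1.1 - ι (q.1.2 • g) - (1/2 : ℝ) • r)
              = T + r := by
            rw [hT]; module
          rw [e, hr]; abel

end R166.BHW
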