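import Mathlib
import Pool.Agent.H257.BHW.Rec2

set_option autoImplicit false
open scoped Pointwise

namespace R166.BHW

open Submodule Pool.Agent.H257.BHW

/-- The successive minimum number `i + 1` (so `i = 0` is the first one) of the set `K` with
respect to the lattice spanned over `ℤ` by the basis `b`, literally as in the frozen statement
`S10315`. -/
noncomputable def lam {d : ℕ} (b : Module.Basis (Fin d) ℝ (EuclideanSpace ℝ (Fin d)))
    (K : Set (EuclideanSpace ℝ (Fin d))) (i : ℕ) : ℝ :=
  sInf {t : ℝ | 0 < t ∧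
    i + 1 ≤ Module.finrank ℝ
      (Submodule.span ℝ ((t • K) ∩
        (Submodule.span ℤ (Set.range b) : Set (EuclideanSpace ℝ (Fin d)))))}

section aux

variable {d : ℕ} (b : Module.Basis (Fin d) ℝ (EuclideanSpace ℝ (Fin d)))

theorem indep (k : ℕ) (v : Fin k → span ℤ (Set.range b)) (hv : LinearIndependent ℤ v) :
    LinearIndependent ℝ (fun i => (span ℤ (Set.range b)).subtype (v i)) := by
  have h1 : LinearIndependent ℤ (fun i => (span ℤ (Set.range b)).subtype (v i)) :=
    hv.map' (span ℤ (Set.range b)).subtype (ker_subtype _)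
  set s : Set (EuclideanSpace ℝ (Fin d)) :=
    Set.range (fun i => (span ℤ (Set.range b)).subtype (v i)) with hs
  have hsub : (span ℤ s : Set (EuclideanSpace ℝ (Fin d))) ⊆ span ℤ (Set.range b) := by
    have : span ℤ s ≤ span ℤ (Set.range b) := by
      rw [span_le]
      rintro _ ⟨i, rfl⟩
      exact (v i).2
    exact this
  have hdisc : DiscreteTopology (span ℤ s) := by
    have h : DiscreteTopology (span ℤ (Set.range b)) := inferInstance
    exact DiscreteTopology.of_subset h hsub
  have h2 := Real.finrank_eq_int_finrank_of_discrete hdisc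
  rw [linearIndependent_iff_card_eq_finrank_span, h2]
  rw [Set.finrank, finrank_span_eq_card h1]

theorem lower (K : Set (EuclideanSpace ℝ (Fin d))) (hK : IsCompact K) :
    ∃ δ : ℝ, 0 < δ ∧ ∀ t : ℝ, 0 < t → t < δ →
      Module.finrank ℝ (span ℝ ((t • K) ∩
        (span ℤ (Set.range b) : Set (EuclideanSpace ℝ (Fin d))))) = 0 := by
  obtain ⟨R, hR⟩ := hK.isBounded.subset_closedBall 0
  have hdisc : DiscreteTopology (span ℤ (Set.range b)) := inferInstance
  have hopen : IsOpen ({0} : Set (span ℤ (Set.range b))) := isOpen_discrete _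
  obtain ⟨r, hr, hball⟩ := Metric.isOpen_singleton_iff.1 hopen
  refine ⟨r / (|R| + 1), by positivity, ?_⟩
  intro t ht htδ
  have hsub : (t • K) ∩ (span ℤ (Set.range b) : Set (EuclideanSpace ℝ (Fin d))) ⊆ {0} := by
    rintro x ⟨hx, hxL⟩
    obtain ⟨y, hy, rfl⟩ := hx
    have h1 : ‖y‖ ≤ |R| := by
      have := hR hy
      rw [mem_closedBall_zero_iff] at this
      exact this.trans (le_abs_self R)
    have h2 : ‖t • y‖ < r := by
      rw [norm_smul, Real.norm_of_nonneg ht.le]
      rw [lt_div_iff₀ (by positivity)] at htδ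
      nlinarith [norm_nonneg y]
    have h3 := hball ⟨t • y, hxL⟩ (by
      rw [Subtype.dist_eq]
      simpa [dist_eq_norm] using h2)
    exact congrArg Subtype.val h3
  have h4 : span ℝ ((t • K) ∩ (span ℤ (Set.range b) : Set (EuclideanSpace ℝ (Fin d)))) = ⊥ := by
    rw [span_eq_bot]
    intro x hx
    exact hsub hx
  rw [h4]; simp

theorem zero_int {K : Set (EuclideanSpace ℝ (Fin d))} (hc : Convex ℝ K)
    (hi : (interior K).Nonempty) (hs : ∀ x ∈ K, -x ∈ K) : (0 : EuclideanSpace ℝ (Fin d)) ∈ interior K := by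
  obtain ⟨x, hx⟩ := hi
  have := hc.combo_interior_self_mem_interior hx (hs x (interior_subset hx))
    (by norm_num : (0:ℝ) < 1/2) (by norm_num : (0:ℝ) ≤ 1/2) (by norm_num)
  convert this using 1
  module

theorem upper {K : Set (EuclideanSpace ℝ (Fin d))} (h0 : (0 : EuclideanSpace ℝ (Fin d)) ∈ interior K) :
    ∃ t : ℝ, 0 < t ∧ Module.finrank ℝ (span ℝ ((t • K) ∩
        (span ℤ (Set.range b) : Set (EuclideanSpace ℝ (Fin d))))) = d := by
  obtain ⟨ρ, hρ, hball⟩ := Metric.isOpen_iff.1 isOpen_interior 0 h0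
  set t : ℝ := (∑ i, ‖b i‖ + 1) / ρ with ht
  have hS : 0 ≤ ∑ i, ‖b i‖ := Finset.sum_nonneg fun i _ => norm_nonneg _
  have htpos : 0 < t := by positivity
  refine ⟨t, htpos, ?_⟩
  have htop : span ℝ ((t • K) ∩ (span ℤ (Set.range b) : Set (EuclideanSpace ℝ (Fin d)))) = ⊤ := by
    rw [eq_top_iff, ← b.span_eq, span_le]
    rintro _ ⟨i, rfl⟩
    apply subset_span
    refine ⟨⟨t⁻¹ • b i, ?_, ?_⟩, subset_span ⟨i, rfl⟩⟩
    · apply interior_subset
      apply hball
      rw [mem_ball_zero_iff, norm_smul, norm_inv, Real.norm_of_nonneg htpos.le]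
      have h1 : ‖b i‖ ≤ ∑ i, ‖b i‖ :=
        Finset.single_le_sum (f := fun i => ‖b i‖) (fun i _ => norm_nonneg _) (Finset.mem_univ i)
      rw [inv_mul_lt_iff₀ htpos, ht, div_mul_cancel₀ _ hρ.ne']
      linarith
    · show t • t⁻¹ • b i = b i
      rw [smul_smul, mul_inv_cancel₀ htpos.ne', one_smul]
  rw [htop, finrank_top]
  simp

end aux


/-- Reduction of the Betke-Henk-Wills inequality to a statement about an antitone sequence `m`
with `m j * λ_j > 2`. -/
theorem final (d : ℕ) (b : Module.Basis (Fin d) ℝ (EuclideanSpace ℝ (Fin d)))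
      (K : Set (EuclideanSpace ℝ (Fin d)))
      (hc : Convex ℝ K) (hK : IsCompact K) (hi : (interior K).Nonempty) (hs : ∀ x ∈ K, -x ∈ K)
      (hmain : ∀ m : ℕ → ℕ, Antitone m → (∀ j, 0 < m j) →
        (∀ i, i < d → ((m i : ℕ) : ℤ) = Int.floor (2 / lam b K i + 1)) →
        (∀ j < d, Module.finrank ℝ (span ℝ ((span ℤ (Set.range b)).subtype ''
          {a : span ℤ (Set.range b) | (m j : ℝ) • (a : EuclideanSpace ℝ (Fin d)) ∈ (2 : ℝ) • K})) ≤ j) →
        (K ∩ (span ℤ (Set.range b) : Set (EuclideanSpace ℝ (Fin d)))).ncard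
          ≤ ∏ j ∈ Finset.range d, m j) :
      ((K ∩ (span ℤ (Set.range b) : Set (EuclideanSpace ℝ (Fin d)))).ncard : ℤ) ≤
        ∏ i : Fin d, Int.floor (2 / lam b K i.val + 1) := by
  classical
  set L : Submodule ℤ (EuclideanSpace ℝ (Fin d)) := span ℤ (Set.range b) with hL
  have h0i : (0 : EuclideanSpace ℝ (Fin d)) ∈ interior K := zero_int hc hi hs
  obtain ⟨δ, hδ, hlow⟩ := lower b K hK
  obtain ⟨t1, ht1, hup⟩ := upper b h0i
  -- the defining sets
  let St : ℕ → Set ℝ := fun i => {t : ℝ | 0 < t ∧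
    i + 1 ≤ Module.finrank ℝ (span ℝ ((t • K) ∩ (L : Set (EuclideanSpace ℝ (Fin d)))))}
  have hlam : ∀ i, lam b K i = sInf (St i) := fun i => rfl
  have hne : ∀ i, i < d → (St i).Nonempty := fun i hi' => ⟨t1, ht1, by rw [hup]; omega⟩
  have hbdd : ∀ i, BddBelow (St i) := fun i => ⟨0, fun t ht => ht.1.le⟩
  have hlampos : ∀ i, i < d → 0 < lam b K i := by
    intro i hi'
    rw [hlam]
    refine lt_of_lt_of_le hδ (le_csInf (hne i hi') ?_)
    intro t ht
    by_contra hcon
    push Not at hcon
    have := hlow t ht.1 hcon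
    have h2 := ht.2
    rw [this] at h2
    omega
  -- the numbers m
  let m : ℕ → ℕ := fun i => if i < d then (Int.floor (2 / lam b K i + 1)).toNat else 1
  have hfl : ∀ i, i < d → 1 ≤ Int.floor (2 / lam b K i + 1) := by
    intro i hi'
    rw [Int.le_floor]
    have := hlampos i hi'
    have : 0 ≤ 2 / lam b K i := by positivity
    push_cast; linarith
  have hmcast : ∀ i, i < d → ((m i : ℕ) : ℤ) = Int.floor (2 / lam b K i + 1) := by
    intro i hi'
    show (((if i < d then (Int.floor (2 / lam b K i + 1)).toNat else 1 : ℕ)) : ℤ) = _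
    rw [if_pos hi', Int.toNat_of_nonneg (by linarith [hfl i hi'])]
  have hmcastR : ∀ i, i < d → ((m i : ℕ) : ℝ) = ((Int.floor (2 / lam b K i + 1) : ℤ) : ℝ) := by
    intro i hi'
    rw [← hmcast i hi']; push_cast; rfl
  have hmpos : ∀ i, 0 < m i := by
    intro i
    by_cases hi' : i < d
    · have h1 := hmcast i hi'
      have h2 := hfl i hi'
      omega
    · show 0 < (if i < d then (Int.floor (2 / lam b K i + 1)).toNat else 1)
      rw [if_neg hi']; norm_num
  have hmgt : ∀ i, i < d → 2 / lam b K i < m i := by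
    intro i hi'
    rw [hmcastR i hi']
    have := Int.lt_floor_add_one (2 / lam b K i + 1)
    linarith
  have hm : Antitone m := by
    apply antitone_nat_of_succ_le
    intro j
    by_cases hj : j + 1 < d
    · have hmono : lam b K j ≤ lam b K (j+1) := by
        rw [hlam, hlam]
        apply csInf_le_csInf (hbdd j) (hne (j+1) hj)
        intro t ht
        exact ⟨ht.1, by have := ht.2; omega⟩
      have h1 : Int.floor (2 / lam b K (j+1) + 1) ≤ Int.floor (2 / lam b K j + 1) := by
        apply Int.floor_mono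
        have h2 := hlampos j (by omega)
        have h3 : 2 / lam b K (j+1) ≤ 2 / lam b K j :=
          div_le_div_of_nonneg_left (by norm_num) h2 hmono
        linarith
      rw [← hmcast j (by omega), ← hmcast (j+1) hj] at h1
      exact_mod_cast h1
    · have : m (j+1) = 1 := by
        show (if j + 1 < d then (Int.floor (2 / lam b K (j+1) + 1)).toNat else 1) = 1
        rw [if_neg hj]
      rw [this]; exact hmpos j
  have hcard := hmain m hm hmpos hmcast (by
      intro j hj
      have hmj : (0 : ℝ) < m j := by exact_mod_cast hmpos j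
      have hlp := hlampos j hj
      have hlt : 2 / (m j : ℝ) < lam b K j := by
        have := hmgt j hj
        rw [div_lt_iff₀ hlp] at this
        rw [div_lt_iff₀ hmj]
        linarith
      have hnotin : 2 / (m j : ℝ) ∉ St j := by
        intro hmem
        have := csInf_le (hbdd j) hmem
        rw [← hlam] at this
        linarith
      have h2 : Module.finrank ℝ (span ℝ (((2 / (m j : ℝ)) • K) ∩ (L : Set (EuclideanSpace ℝ (Fin d))))) ≤ j := by
        by_contra hcon
        push Not at hcon
        exact hnotin ⟨by positivity, hcon⟩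
      refine le_trans ?_ h2
      apply Submodule.finrank_mono
      apply span_mono
      rintro _ ⟨a, ⟨y, hy, hya⟩, rfl⟩
      refine ⟨⟨y, hy, ?_⟩, a.2⟩
      show (2 / (m j : ℝ)) • y = L.subtype a
      have h3 : (2 : ℝ) • y = (m j : ℝ) • (a : EuclideanSpace ℝ (Fin d)) := hya
      have h4 : (2 / (m j : ℝ)) • y = (1 / (m j : ℝ)) • ((2 : ℝ) • y) := by
        rw [smul_smul]; congr 1; field_simp
      rw [h4, h3, smul_smul]
      rw [one_div_mul_cancel hmj.ne', one_smul]
      rfl)
  have hfinal : ((∏ j ∈ Finset.range d, m j : ℕ) : ℤ)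
      = ∏ i : Fin d, Int.floor (2 / lam b K i.val + 1) := by
    rw [Nat.cast_prod, Finset.prod_range]
    apply Finset.prod_congr rfl
    intro i _
    exact hmcast i.val i.2
  rw [← hfinal]
  exact_mod_cast hcard

end R166.BHW
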