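import Mathlib
import Pool.Agent.R166.BHW.Base2

set_option autoImplicit false

namespace R166.BHW

open Submodule Pool.Agent.H257.BHW

universe u v

variable {E : Type*} [NormedAddCommGroup E] [InnerProductSpace ℝ E] [FiniteDimensional ℝ E]

theorem eq_zero_of_rank {A : Type u} [AddCommGroup A] (ι : A →ₗ[ℤ] E)
    (hinj : ∀ a : A, ι a = 0 → a = 0) (X : Set A)
    (h : Module.finrank ℝ (span ℝ (ι '' X)) ≤ 0) {a : A} (ha : a ∈ X) : a = 0 := by
  apply hinj
  have h1 : span ℝ (ι '' X) = ⊥ := Submodule.finrank_eq_zero.1 (Nat.le_zero.1 h)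
  have h2 : ι a ∈ span ℝ (ι '' X) := subset_span ⟨a, ha, rfl⟩
  rw [h1] at h2
  exact (Submodule.mem_bot ℝ).1 h2

/-- The flag recursion for arbitrary convex bodies, with divisibility from the third position on. -/
theorem rec_gen (m : ℕ → ℕ) (hm : Antitone m) (hpos : ∀ j, 0 < m j) (D : Set E) :
    ∀ (n : ℕ) (A : Type u) [AddCommGroup A] [Module.Free ℤ A] [Module.Finite ℤ A]
      (ι : A →ₗ[ℤ] E), Module.finrank ℤ A = n →
      (∀ (k : ℕ) (v : Fin k → A), LinearIndependent ℤ v →
        LinearIndependent ℝ (fun i => ι (v i))) →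
      (∀ a : A, ι a = 0 → a = 0) →
      (∀ R : ℝ, {a : A | ‖ι a‖ ≤ R}.Finite) →
      (∀ j < n, Module.finrank ℝ (span ℝ (ι '' {a : A | (m j : ℝ) • ι a ∈ D})) ≤ j) →
      (∀ j, 2 ≤ j → j + 1 < n → m (j + 1) ∣ m j) →
      ∀ (b : ℕ), 0 < b → (0 < n → b ≤ m (n - 1)) → (3 ≤ n → b ∣ m (n - 1)) →
      ∀ (I : Type v) (K : I → Set E), (∀ i, Convex ℝ (K i)) →
      (∀ i, ∀ x ∈ K i, ∀ y ∈ K i, x - y ∈ D) → ∀ (S : Finset (I × A)),
      (∀ p ∈ S, ι p.2 ∈ K p.1) →
      (∀ p ∈ S, ∀ q ∈ S, p.1 ≠ q.1 → ∀ a : A, ∀ x ∈ K p.1, ∀ y ∈ K q.1,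
        x - y ≠ (b : ℝ) • ι a) →
      S.card ≤ ∏ j ∈ Finset.range n, m j := by
  classical
  intro n
  induction n with
  | zero =>
    intro A _ _ _ ι hA _ _ _ _ _ b hb _ _ I K _ _ S hS hP
    have hsub : Subsingleton A := by
      rw [← Module.finrank_eq_zero_iff_of_free ℤ A]; exact hA
    simp only [Finset.range_zero, Finset.prod_empty]
    rw [Finset.card_le_one]
    intro p hp q hq
    have h2 : p.2 = q.2 := Subsingleton.elim _ _
    by_contra hne
    have h1 : p.1 ≠ q.1 := fun h => hne (Prod.ext h h2)
    have h4 := hS q hq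
    rw [← h2] at h4
    exact hP p hp q hq h1 0 _ (hS p hp) _ h4 (by simp)
  | succ N ih =>
    intro A _ _ _ ι hA hI hinj hdisc ha hdvd b hb hbm hbd I K hK hKD S hS hP
    have hbM : b ≤ m N := by simpa using hbm (Nat.succ_pos N)
    have ha0 : ∀ a : A, (m 0 : ℝ) • ι a ∈ D → a = 0 := fun a h =>
      eq_zero_of_rank ι hinj _ (ha 0 (Nat.succ_pos N)) h
    rcases Nat.lt_or_ge N 2 with hN | hN
    · rcases Nat.eq_zero_or_pos N with hN0 | hN0
      · subst hN0
        simp only [Finset.prod_range_succ, Finset.range_zero, Finset.prod_empty, one_mul]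
        refine base1 hA ι b (m 0) hb hbM K hK S hS hP ?_
        intro p hp a hane x hx y hy hxy
        have := hKD p.1 x hx y hy
        rw [hxy] at this
        exact hane (ha0 a this)
      · have hN1 : N = 1 := by omega
        subst hN1
        have h1 : ∏ j ∈ Finset.range (1 + 1), m j = m 0 * m 1 := by
          simp [Finset.prod_range_succ]
        rw [h1]
        exact base2 hA ι hI hinj hdisc b (m 1) (m 0) hb hbM (hm (by omega)) D K hK hKD ha0
          (ha 1 (by omega)) S hS hP
    · -- fibres
      have hbd' : b ∣ m N := by simpa using hbd (by omega)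
      have hX : Module.finrank ℤ (span ℤ {a : A | (m N : ℝ) • ι a ∈ D}) ≤ N :=
        le_trans (rank_le ι hI _) (ha N (Nat.lt_succ_self N))
      obtain ⟨f, hf, hfX, hker⟩ := exists_functional hA _ hX
      obtain ⟨g, hg⟩ := hf 1
      rw [Finset.prod_range_succ]
      refine fibre_step ι f g hg (m N) (hpos N) _ K S hS ?_ ?_ ?_
      · intro p hp q hq hne a x hx y hy hxy
        obtain ⟨k, hk⟩ := hbd'
        refine hP p hp q hq hne (k • a) x hx y hy ?_
        rw [hxy, hk, map_nsmul, ← Nat.cast_smul_eq_nsmul ℝ, smul_smul]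
        push_cast
        rfl
      · intro p hp a hfa x hx y hy hxy
        apply hfa
        apply hfX
        show (m N : ℝ) • ι a ∈ D
        rw [← hxy]
        exact hKD p.1 x hx y hy
      · intro S' h1 h2 h3
        set ι0 : (LinearMap.ker f) →ₗ[ℤ] E := ι.comp (LinearMap.ker f).subtype with hι0
        have hI0 : ∀ (k : ℕ) (v : Fin k → LinearMap.ker f), LinearIndependent ℤ v →
            LinearIndependent ℝ (fun i => ι0 (v i)) := by
          intro k v hv
          have h1 : LinearIndependent ℤ (fun i => ((v i : LinearMap.ker f) : A)) :=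
            hv.map' (LinearMap.ker f).subtype (ker_subtype _)
          exact hI k _ h1
        refine ih (LinearMap.ker f) ι0 hker hI0 ?_ ?_ ?_ ?_ (m N) (hpos N) ?_ ?_ (I × ℤ)
          (fun q => {x | x + ι (q.2 • g) ∈ K q.1}) ?_ ?_ S' h1
          (fun p hp q hq hne a x hx y hy => h3 p hp q hq hne a x y hx hy)
        · intro a h
          exact Subtype.ext (hinj _ h)
        · intro R
          refine Set.Finite.of_injOn (f := fun a : LinearMap.ker f => (a : A))
            (t := {a : A | ‖ι a‖ ≤ R}) ?_ Subtype.val_injective.injOn (hdisc R)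
          intro a ha
          exact ha
        · intro j hj
          refine le_trans ?_ (ha j (by omega))
          apply Submodule.finrank_mono
          apply span_mono
          rintro _ ⟨a, haa, rfl⟩
          exact ⟨(a : A), haa, rfl⟩
        · intro j hj1 hj2
          exact hdvd j hj1 (by omega)
        · intro _
          exact hm (by omega)
        · intro hN3
          have := hdvd (N - 1) (by omega) (by omega)
          have e : N - 1 + 1 = N := by omega
          rwa [e] at this
        · intro q x hx y hy α β hα hβ hαβ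
          have := hK q.1 hx hy hα hβ hαβ
          show α • x + β • y + ι (q.2 • g) ∈ K q.1
          convert this using 1
          have hβ' : β = 1 - α := by linarith
          subst hβ'
          module
        · intro q x hx y hy
          have := hKD q.1 _ hx _ hy
          rwa [add_sub_add_right_eq_sub] at this

/-- Only the rank of the lattice points of `K` matters. -/
theorem rec_rank (m : ℕ → ℕ) (hm : Antitone m) (hpos : ∀ j, 0 < m j) (D K : Set E)
    (hK : Convex ℝ K) (hKD : ∀ x ∈ K, ∀ y ∈ K, x - y ∈ D) (r : ℕ)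
    (hdvd : ∀ j, 2 ≤ j → j + 1 < r → m (j + 1) ∣ m j) :
    ∀ (n : ℕ) (A : Type u) [AddCommGroup A] [Module.Free ℤ A] [Module.Finite ℤ A]
      (ι : A →ₗ[ℤ] E), Module.finrank ℤ A = n → r ≤ n →
      (∀ (k : ℕ) (v : Fin k → A), LinearIndependent ℤ v →
        LinearIndependent ℝ (fun i => ι (v i))) →
      (∀ a : A, ι a = 0 → a = 0) →
      (∀ R : ℝ, {a : A | ‖ι a‖ ≤ R}.Finite) →
      (∀ j < r, Module.finrank ℝ (span ℝ (ι '' {a : A | (m j : ℝ) • ι a ∈ D})) ≤ j) →
      (Module.finrank ℝ (span ℝ (ι '' {a : A | ι a ∈ K})) ≤ r) →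
      ∀ (S : Finset A), (∀ a ∈ S, ι a ∈ K) → S.card ≤ ∏ j ∈ Finset.range r, m j := by
  classical
  intro n
  induction n with
  | zero =>
    intro A _ _ _ ι hA hr hI hinj hdisc ha hrk S hS
    have hsub : Subsingleton A := by
      rw [← Module.finrank_eq_zero_iff_of_free ℤ A]; exact hA
    have h1 : S.card ≤ 1 := by
      rw [Finset.card_le_one]
      intro a _ b _
      exact Subsingleton.elim _ _
    exact h1.trans (Finset.prod_pos fun j _ => hpos j)
  | succ N ih =>
    intro A _ _ _ ι hA hr hI hinj hdisc ha hrk S hS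
    rcases hr.lt_or_eq with hlt | heq
    · -- drop one dimension
      obtain ⟨f, hf, hfX, hker⟩ := exists_functional (N := N) hA {a : A | ι a ∈ K}
        ((rank_le ι hI _).trans (hrk.trans (by omega)))
      set ι0 : (LinearMap.ker f) →ₗ[ℤ] E := ι.comp (LinearMap.ker f).subtype with hι0
      let F : S → LinearMap.ker f := fun a => ⟨a.1, hfX a.1 (hS a.1 a.2)⟩
      have hFinj : Function.Injective F := by
        intro a b h
        have h1 : a.1 = b.1 := congrArg (fun z : LinearMap.ker f => (z : A)) h
        exact Subtype.ext h1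
      have hcard : (Finset.univ.image F).card = S.card := by
        rw [Finset.card_image_of_injective _ hFinj]; simp
      rw [← hcard]
      refine ih (LinearMap.ker f) ι0 hker (by omega) ?_ ?_ ?_ ?_ ?_ _ ?_
      · intro k v hv
        have h1 : LinearIndependent ℤ (fun i => ((v i : LinearMap.ker f) : A)) :=
          hv.map' (LinearMap.ker f).subtype (ker_subtype _)
        exact hI k _ h1
      · intro a h
        exact Subtype.ext (hinj _ h)
      · intro R
        refine Set.Finite.of_injOn (f := fun a : LinearMap.ker f => (a : A))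
          (t := {a : A | ‖ι a‖ ≤ R}) ?_ Subtype.val_injective.injOn (hdisc R)
        intro a ha
        exact ha
      · intro j hj
        refine le_trans ?_ (ha j hj)
        apply Submodule.finrank_mono
        apply span_mono
        rintro _ ⟨a, haa, rfl⟩
        exact ⟨(a : A), haa, rfl⟩
      · refine le_trans ?_ hrk
        apply Submodule.finrank_mono
        apply span_mono
        rintro _ ⟨a, haa, rfl⟩
        exact ⟨(a : A), haa, rfl⟩
      · intro a ha
        obtain ⟨x, _, rfl⟩ := Finset.mem_image.1 ha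
        exact hS x.1 x.2
    · subst heq
      have hcard : (S.image (fun a => ((), a))).card = S.card := by
        apply Finset.card_image_of_injective
        intro a b h
        exact (Prod.mk.inj h).2
      rw [← hcard]
      refine rec_gen m hm hpos D (N + 1) A ι hA hI hinj hdisc ha hdvd 1 one_pos (fun _ => hpos _)
        (fun _ => one_dvd _) Unit (fun _ => K) (fun _ => hK) (fun _ => hKD) _ ?_ ?_
      · intro p hp
        obtain ⟨a, ha, rfl⟩ := Finset.mem_image.1 hp
        exact hS a ha
      · intro p _ q _ h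
        exact absurd (Subsingleton.elim _ _) h

end R166.BHW
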